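import Mathlib
import Pool.Agent.U644.EQ.Core
import Pool.Agent.U980.EQ.Meas

/-!
# Components of Shimura varieties, with the Galois action on special points
-/

set_option autoImplicit false
set_option linter.style.haveILetI false

namespace Pool.Agent.U980.JT

open MeasureTheory Filter Topology MulAction

open Classical in
/-- The connected components of Shimura varieties, of positive dimension, defined over a fixed number field `E`,
with the action of `Γ = Gal(ℚ̄/E)` on their special points, and the known facts that are used. -/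
structure GaloisTheory (Γ : Type) [Group Γ] where
  /-- the components -/
  Sh : Type
  /-- the dimension -/
  dim : Sh → ℕ
  dim_pos : ∀ S, 1 ≤ dim S
  /-- the space `S(ℂ)` -/
  X : Sh → Type
  [top : ∀ S, TopologicalSpace (X S)]
  [t2 : ∀ S, T2Space (X S)]
  [lc : ∀ S, LocallyCompactSpace (X S)]
  [sc : ∀ S, SecondCountableTopology (X S)]
  [ms : ∀ S, MeasurableSpace (X S)]
  [bs : ∀ S, BorelSpace (X S)]
  /-- the invariant probability measure -/
  m : ∀ S, Measure (X S)
  [prob : ∀ S, IsProbabilityMeasure (m S)]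
  /-- the special points -/
  P : Sh → Type
  /-- the action of the Galois group of `E` -/
  [act : ∀ S, MulAction Γ (P S)]
  /-- a special point as a point of `S(ℂ)` -/
  pt : ∀ {S}, P S → X S
  /-- the Galois orbit, which is finite -/
  orb : ∀ {S}, P S → Finset (P S)
  mem_orb : ∀ {S} (y z : P S), z ∈ orb y ↔ z ∈ orbit Γ y
  /-- the proper special subvarieties -/
  Spec : ∀ S, Set (Set (X S))
  spec_countable : ∀ S, (Spec S).Countable
  /-- a special subvariety has finitely many Galois conjugates, which are special -/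
  conj : ∀ S, ∀ Z ∈ Spec S, ∃ F : Set (Set (X S)), F.Finite ∧ F ⊆ Spec S ∧
    ∀ (g : Γ) (y : P S), pt (g • y) ∈ Z → ∃ Z' ∈ F, pt y ∈ Z'
  /-- the power `S^{k+1}` -/
  pow : Sh → ℕ → Sh
  dim_pow : ∀ S k, dim (pow S k) = (k + 1) * dim S
  /-- the points of the power -/
  powX : ∀ S k, X (pow S k) ≃ₜ (Fin (k + 1) → X S)
  /-- the special points of the power -/
  powP : ∀ S k, P (pow S k) ≃ (Fin (k + 1) → P S)
  pow_pt : ∀ S k (y : P (pow S k)) i, powX S k (pt y) i = pt (powP S k y i)
  pow_smul : ∀ S k (g : Γ) (y : P (pow S k)) i, powP S k (g • y) i = g • powP S k y i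
  pow_m : ∀ S k, MeasurePreserving (powX S k) (m (pow S k)) (Measure.pi fun _ => m S)
  /-- tuples of Galois conjugates are usually not in a given proper special subvariety -/
  generic : ∀ S k (x : ℕ → P S), (∀ Z ∈ Spec S, ∀ᶠ i in atTop, pt (x i) ∉ Z) → ∀ Z ∈ Spec (pow S k),
    Tendsto (fun i => (((Fintype.piFinset fun _ : Fin (k + 1) => orb (x i)).filter
      fun y => pt ((powP S k).symm y) ∈ Z).card : ℝ) / ((orb (x i)).card : ℝ) ^ (k + 1)) atTop (𝓝 0)
  /-- the Galois group of `ℚ̄` over `R E`, where `R` is the splitting field of the Mumford-Tate group of a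
  special point -/
  gal : ∀ {S}, P S → Subgroup Γ
  gal_normal : ∀ {S} (y : P S), (gal y).Normal
  gal_smul : ∀ {S} (g : Γ) (y : P S), gal (g • y) = gal y
  gal_index : ∀ {S} (y : P S), (gal y).index ≠ 0
  /-- the degree of `R` is bounded -/
  gal_bounded : ∀ S, ∃ C : ℕ, ∀ y : P S, (gal y).index ≤ C
  /-- special points are defined over abelian extensions of `R` -/
  comm : ∀ {S} (y : P S), ∀ σ ∈ gal y, ∀ τ ∈ gal y, σ • τ • y = τ • σ • y

attribute [instance] GaloisTheory.top GaloisTheory.t2 GaloisTheory.lc GaloisTheory.sc GaloisTheory.ms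
  GaloisTheory.bs GaloisTheory.prob GaloisTheory.act

variable {Γ : Type} [Group Γ] (T : GaloisTheory Γ)

/-- Every proper special subvariety contains only finitely many points of the sequence. -/
def Strict {S : T.Sh} (x : ℕ → T.P S) : Prop := ∀ Z ∈ T.Spec S, ∀ᶠ i in atTop, T.pt (x i) ∉ Z

/-- The average of `φ` over a finite set of points. -/
noncomputable def av {A : Type} (B : Finset A) (φ : A → ℝ) : ℝ := (∑ y ∈ B, φ y) / B.card

/-- Q1 for `S`: the Galois orbits of strict sequences are equidistributed. -/
def Equidistribution (S : T.Sh) : Prop :=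
  ∀ x : ℕ → T.P S, Strict T x → ∀ f : T.X S → ℝ, Continuous f → HasCompactSupport f →
    Tendsto (fun i => av (T.orb (x i)) fun y => f (T.pt y)) atTop (𝓝 (∫ y, f y ∂(T.m S)))

theorem orb_self {S : T.Sh} (y : T.P S) : y ∈ T.orb y := (T.mem_orb y y).2 (mem_orbit_self y)

/-- the underlying data for the library of helper644 -/
def core : Pool.Agent.U644.EQ.EquiTheory.{0} where
  Sh := T.Sh
  dim := T.dim
  dim_pos := T.dim_pos
  X := T.X
  m := T.m
  P := T.P
  pt := T.pt
  orb := T.orb
  self_mem := orb_self T
  orb_eq := by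
    intro S x y hy
    ext z
    rw [T.mem_orb, T.mem_orb, orbit_eq_iff.2 ((T.mem_orb x y).1 hy)]
  Spec := T.Spec
  spec_countable := T.spec_countable
  pow := T.pow
  dim_pow := T.dim_pow
  powX := T.powX
  powP := T.powP
  pow_pt := T.pow_pt
  pow_orb := by
    intro S k y z hz i
    rw [T.mem_orb] at hz ⊢
    obtain ⟨g, rfl⟩ := hz
    exact ⟨g, (T.pow_smul S k g y i).symm⟩
  pow_m := T.pow_m
  generic := T.generic

end Pool.Agent.U980.JT
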