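import Mathlib
import Pool.Agent.U980.JT.Defs

/-!
# Orbits of subgroups
-/

set_option autoImplicit false
set_option linter.style.haveILetI false

namespace Pool.Agent.U980.JT

open MeasureTheory Filter Topology MulAction

/-- Averages over blocks. -/
theorem sum_av {A : Type} [DecidableEq A] (O : Finset A) (R : A → Finset A) (hself : ∀ y ∈ O, y ∈ R y)
    (hR : ∀ y ∈ O, R y ⊆ O) (hconst : ∀ y ∈ O, ∀ z ∈ R y, R z = R y) (F : A → ℝ) :
    ∑ y ∈ O, av (R y) F = ∑ y ∈ O, F y := by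
  unfold av
  have h1 : ∀ y ∈ O, (∑ z ∈ R y, F z) / (R y).card = ∑ z ∈ R y, F z / (R z).card := by
    intro y hy
    rw [Finset.sum_div]
    refine Finset.sum_congr rfl fun z hz => ?_
    rw [hconst y hy z hz]
  rw [Finset.sum_congr rfl h1]
  rw [Finset.sum_comm' (t' := O) (s' := fun z => R z)]
  · refine Finset.sum_congr rfl fun z hz => ?_
    rw [Finset.sum_const, nsmul_eq_mul, mul_div_cancel₀]
    exact_mod_cast (Finset.card_pos.2 ⟨z, hself z hz⟩).ne'
  · intro y z
    constructor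
    · rintro ⟨hy, hz⟩
      exact ⟨by rw [hconst y hy z hz]; exact hself y hy, hR y hy hz⟩
    · rintro ⟨hy, hz⟩
      exact ⟨hR z hz hy, by rw [hconst z hz y hy]; exact hself z hz⟩

/-- If all block averages are at most `I + ε` and the total average is at least `I - ε`, then all block
averages are at least `I - 2 C ε`, if the blocks are at least `1 / C` of the whole. -/
theorem lower_of_upper {A : Type} [DecidableEq A] (O : Finset A) (R : A → Finset A)
    (hself : ∀ y ∈ O, y ∈ R y) (hR : ∀ y ∈ O, R y ⊆ O) (hconst : ∀ y ∈ O, ∀ z ∈ R y, R z = R y)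
    (F : A → ℝ) {I ε C : ℝ} (hε : 0 ≤ ε) (hup : ∀ y ∈ O, av (R y) F ≤ I + ε) (hlow : I - ε ≤ av O F)
    {y : A} (hy : y ∈ O) (hC : (O.card : ℝ) ≤ C * (R y).card) : I - 2 * C * ε ≤ av (R y) F := by
  have hO : (0 : ℝ) < O.card := by exact_mod_cast Finset.card_pos.2 ⟨y, hy⟩
  have hb : (0 : ℝ) < (R y).card := by exact_mod_cast Finset.card_pos.2 ⟨y, hself y hy⟩
  have hblk : ∀ z ∈ O \ R y, R z ⊆ O \ R y := by
    intro z hz w hw
    rw [Finset.mem_sdiff] at hz ⊢
    refine ⟨hR z hz.1 hw, fun hwy => hz.2 ?_⟩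
    have e1 := hconst z hz.1 w hw
    have e2 := hconst y hy w hwy
    rw [← e2, e1]
    exact hself z hz.1
  have h1 : ∑ z ∈ O \ R y, F z ≤ ((O.card : ℝ) - (R y).card) * (I + ε) := by
    rw [← sum_av (O \ R y) R (fun z hz => hself z (Finset.mem_sdiff.1 hz).1) hblk
      (fun z hz => hconst z (Finset.mem_sdiff.1 hz).1) F]
    refine (Finset.sum_le_sum fun z hz => hup z (Finset.mem_sdiff.1 hz).1).trans (le_of_eq ?_)
    rw [Finset.sum_const, nsmul_eq_mul, Finset.card_sdiff_of_subset (hR y hy),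
      Nat.cast_sub (Finset.card_le_card (hR y hy))]
  have h2 : ∑ z ∈ O \ R y, F z + ∑ z ∈ R y, F z = ∑ z ∈ O, F z := Finset.sum_sdiff (hR y hy)
  have h3 : (I - ε) * O.card ≤ ∑ z ∈ O, F z := by
    unfold av at hlow
    rwa [le_div_iff₀ hO] at hlow
  unfold av
  rw [le_div_iff₀ hb]
  nlinarith [mul_le_mul_of_nonneg_left hC hε]

variable {Γ : Type} [Group Γ] (T : GaloisTheory Γ)

open Classical in
/-- the orbit of a subgroup as a finite set -/
noncomputable def sub (H : Subgroup Γ) {S : T.Sh} (y : T.P S) : Finset (T.P S) :=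
  (T.orb y).filter fun z => z ∈ orbit H y

theorem mem_sub {H : Subgroup Γ} {S : T.Sh} {y z : T.P S} : z ∈ sub T H y ↔ z ∈ orbit H y := by
  classical
  unfold sub
  rw [Finset.mem_filter, T.mem_orb]
  refine ⟨fun h => h.2, fun h => ⟨?_, h⟩⟩
  obtain ⟨g, rfl⟩ := h
  exact ⟨(g : Γ), rfl⟩

theorem sub_top {S : T.Sh} (y : T.P S) : sub T ⊤ y = T.orb y := by
  ext z
  rw [mem_sub, T.mem_orb]
  constructor
  · rintro ⟨g, rfl⟩
    exact ⟨(g : Γ), rfl⟩
  · rintro ⟨g, rfl⟩
    exact ⟨⟨g, trivial⟩, rfl⟩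

theorem self_sub (H : Subgroup Γ) {S : T.Sh} (y : T.P S) : y ∈ sub T H y :=
  (mem_sub T).2 (mem_orbit_self y)

theorem sub_eq {H : Subgroup Γ} {S : T.Sh} {y z : T.P S} (h : z ∈ sub T H y) : sub T H z = sub T H y := by
  ext w
  rw [mem_sub] at h
  rw [mem_sub, mem_sub, orbit_eq_iff.2 h]

theorem sub_mono {H K : Subgroup Γ} (h : H ≤ K) {S : T.Sh} (y : T.P S) : sub T H y ⊆ sub T K y := by
  intro z hz
  rw [mem_sub] at hz ⊢
  obtain ⟨g, rfl⟩ := hz
  exact ⟨⟨g, h g.2⟩, rfl⟩

theorem card_sub (H : Subgroup Γ) {S : T.Sh} (y : T.P S) :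
    (sub T H y).card = (stabilizer Γ y).relIndex H := by
  have h : (sub T H y : Set (T.P S)) = orbit H y := by
    ext z
    rw [Finset.mem_coe, mem_sub]
  rw [← Set.ncard_coe_finset, h, ← index_stabilizer, Subgroup.relIndex]
  congr 1

theorem stab_index {S : T.Sh} (y : T.P S) : (stabilizer Γ y).index ≠ 0 := by
  rw [← Subgroup.relIndex_top_right, ← card_sub]
  exact (Finset.card_pos.2 ⟨y, self_sub T ⊤ y⟩).ne'

theorem card_sub_smul {H K : Subgroup Γ} (hn : ∀ g ∈ K, ∀ h ∈ H, g * h * g⁻¹ ∈ H) {g : Γ} (hg : g ∈ K)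
    {S : T.Sh} (y : T.P S) : (sub T H (g • y)).card = (sub T H y).card := by
  classical
  have h : sub T H (g • y) = (sub T H y).image (fun q => g • q) := by
    ext q
    rw [mem_sub, Finset.mem_image]
    constructor
    · rintro ⟨d, rfl⟩
      refine ⟨(g⁻¹ * d * g) • y, ?_, ?_⟩
      · rw [mem_sub]
        refine ⟨⟨g⁻¹ * d * g, ?_⟩, rfl⟩
        have := hn g⁻¹ (K.inv_mem hg) d d.2
        rwa [inv_inv] at this
      · change g • (g⁻¹ * (d : Γ) * g) • y = (d : Γ) • g • y
        simp [smul_smul, mul_assoc]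
    · rintro ⟨_, hq, rfl⟩
      rw [mem_sub] at hq
      obtain ⟨d, rfl⟩ := hq
      refine ⟨⟨g * d * g⁻¹, hn g hg d d.2⟩, ?_⟩
      change (g * (d : Γ) * g⁻¹) • g • y = g • (d : Γ) • y
      simp [smul_smul]
  rw [h, Finset.card_image_of_injective _ (MulAction.injective g)]

/-- the orbit is at most the index times the orbit of a subgroup -/
theorem card_le {H K : Subgroup Γ} (h : H ≤ K) (hi : H.relIndex K ≠ 0) {S : T.Sh} (y : T.P S) :
    (sub T K y).card ≤ H.relIndex K * (sub T H y).card := by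
  rw [card_sub, card_sub]
  have hs : (stabilizer Γ y).relIndex K ≠ 0 := by
    intro h0
    exact stab_index T y (by
      rw [← Subgroup.relIndex_top_right]; exact Subgroup.relIndex_eq_zero_of_le_right le_top h0)
  calc (stabilizer Γ y).relIndex K ≤ (stabilizer Γ y ⊓ H).relIndex K :=
        Subgroup.relIndex_le_of_le_left inf_le_left (Subgroup.relIndex_inf_ne_zero hs hi)
    _ = (stabilizer Γ y).relIndex (H ⊓ K) * H.relIndex K := (Subgroup.relIndex_inf_mul_relIndex _ _ _).symm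
    _ = (stabilizer Γ y).relIndex H * H.relIndex K := by rw [inf_of_le_left h]
    _ = _ := mul_comm _ _

/-- points of the `V`-orbit have the same stabilizer in `V = gal x` -/
theorem fix_iff {S : T.Sh} {x : T.P S} {v g : Γ} (hv : v ∈ T.gal x) (hg : g ∈ T.gal x) :
    v • g • x = g • x ↔ v • x = x := by
  rw [T.comm x v hv g hg]
  exact ⟨fun h => smul_left_cancel g h, fun h => by rw [h]⟩

/-- orbits of tuples of points of one orbit of a subgroup of `gal x` -/
theorem card_tuple {S : T.Sh} {x : T.P S} {H : Subgroup Γ} (hH : H ≤ T.gal x) (k : ℕ)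
    (y : T.P (T.pow S k)) (hy : ∀ l, T.powP S k y l ∈ orbit (T.gal x) x) :
    (sub T H y).card = (sub T H x).card := by
  rw [card_sub, card_sub, ← Subgroup.inf_relIndex_right, ← Subgroup.inf_relIndex_right (stabilizer Γ x)]
  congr 1
  ext v
  rw [Subgroup.mem_inf, Subgroup.mem_inf, and_congr_left_iff]
  intro hv
  rw [mem_stabilizer_iff, mem_stabilizer_iff]
  have h1 : v • y = y ↔ ∀ l, v • T.powP S k y l = T.powP S k y l := by
    rw [← (T.powP S k).injective.eq_iff, funext_iff]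
    refine forall_congr' fun l => ?_
    rw [T.pow_smul]
  rw [h1]
  have h2 : ∀ l, v • T.powP S k y l = T.powP S k y l ↔ v • x = x := by
    intro l
    obtain ⟨⟨g, hg⟩, hgl⟩ := hy l
    rw [← hgl]
    exact fix_iff T (hH hv) hg
  exact ⟨fun h => (h2 0).1 (h 0), fun h l => (h2 l).2 h⟩

/-- The Galois orbit of such a tuple. -/
theorem orb_tuple {S : T.Sh} {x : T.P S} {H : Subgroup Γ} (hH : H ≤ T.gal x) {C : ℕ}
    (hC : (T.gal x).index ≤ C) {d : ℝ} (hd : ((T.orb x).card : ℝ) ≤ d * (sub T H x).card) (k : ℕ)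
    (y : T.P (T.pow S k)) (hy : ∀ l, T.powP S k y l ∈ orbit (T.gal x) x) :
    ((T.orb y).card : ℝ) ≤ C * d * (sub T H y).card := by
  have h1 : (T.orb y).card ≤ C * (sub T (T.gal x) y).card := by
    rw [← sub_top]
    refine (card_le T (le_top : T.gal x ≤ ⊤) ?_ y).trans (Nat.mul_le_mul_right _ ?_)
    · rw [Subgroup.relIndex_top_right]
      exact T.gal_index x
    · rw [Subgroup.relIndex_top_right]
      exact hC
  have h2 : (sub T (T.gal x) y).card ≤ (T.orb x).card := by
    rw [card_tuple T le_rfl k y hy, ← sub_top]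
    exact Finset.card_le_card (sub_mono T le_top x)
  have h3 : (sub T H y).card = (sub T H x).card := card_tuple T hH k y hy
  rw [h3]
  calc ((T.orb y).card : ℝ) ≤ C * (sub T (T.gal x) y).card := by exact_mod_cast h1
    _ ≤ C * (T.orb x).card := mul_le_mul_of_nonneg_left (by exact_mod_cast h2) (Nat.cast_nonneg _)
    _ ≤ C * (d * (sub T H x).card) := mul_le_mul_of_nonneg_left hd (Nat.cast_nonneg _)
    _ = _ := by ring

end Pool.Agent.U980.JT
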