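import Mathlib
import Pool.Agent.U980.JT.Orb

/-!
# The upper bound: amplification by powers
-/

set_option autoImplicit false
set_option linter.style.haveILetI false

namespace Pool.Agent.U980.JT

open MeasureTheory Filter Topology MulAction

variable {Γ : Type} [Group Γ] (T : GaloisTheory Γ)

theorem av_le_av {A : Type} (R O : Finset A) (hRO : R ⊆ O) (hR : R.Nonempty) (F : A → ℝ)
    (hF : ∀ z, 0 ≤ F z) {D : ℝ} (hD : (O.card : ℝ) ≤ D * R.card) : av R F ≤ D * av O F := by
  have hRp : (0 : ℝ) < R.card := by exact_mod_cast Finset.card_pos.2 hR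
  have hOp : (0 : ℝ) < O.card := by exact_mod_cast Finset.card_pos.2 (hR.mono hRO)
  unfold av
  have h1 : ∑ z ∈ R, F z ≤ ∑ z ∈ O, F z := Finset.sum_le_sum_of_subset_of_nonneg hRO fun z _ _ => hF z
  have h0 : 0 ≤ ∑ z ∈ O, F z := Finset.sum_nonneg fun z _ => hF z
  rw [mul_div_assoc', div_le_div_iff₀ hRp hOp]
  calc (∑ z ∈ R, F z) * O.card ≤ (∑ z ∈ O, F z) * (D * R.card) :=
        mul_le_mul h1 hD hOp.le h0
    _ = D * (∑ z ∈ O, F z) * R.card := by ring

open Classical in
theorem upper {S : T.Sh} (hQ : ∀ k, Equidistribution T (T.pow S k)) (x : ℕ → T.P S) (hx : Strict T x)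
    (H : ℕ → Subgroup Γ) (hH : ∀ i, H i ≤ T.gal (x i)) {d : ℝ}
    (hd : ∀ i, ((T.orb (x i)).card : ℝ) ≤ d * (sub T (H i) (x i)).card) (f : T.X S → ℝ)
    (hf : Continuous f) (hf2 : HasCompactSupport f) (hf0 : ∀ y, 0 ≤ f y) {ε : ℝ} (hε : 0 < ε) :
    ∀ᶠ i in atTop, av (sub T (H i) (x i)) (fun y => f (T.pt y)) ≤ (∫ y, f y ∂(T.m S)) + ε := by
  obtain ⟨C, hC⟩ := T.gal_bounded S
  set I := ∫ y, f y ∂(T.m S) with hI
  have hI0 : 0 ≤ I := integral_nonneg hf0
  have hd1 : 1 ≤ d := by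
    have h1 := hd 0
    have h2 : ((sub T (H 0) (x 0)).card : ℝ) ≤ (T.orb (x 0)).card := by
      rw [← sub_top]
      exact_mod_cast Finset.card_le_card (sub_mono T le_top _)
    have h3 : (0 : ℝ) < (sub T (H 0) (x 0)).card := by
      exact_mod_cast Finset.card_pos.2 ⟨_, self_sub T (H 0) (x 0)⟩
    nlinarith
  have hd0 : 0 < d := by linarith
  set D : ℝ := C * d with hD
  have hD0 : 0 ≤ D := mul_nonneg (Nat.cast_nonneg _) hd0.le
  -- the power
  have hratio : 1 < (I + ε) / (I + ε / 2) := by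
    rw [one_lt_div (by linarith)]
    linarith
  obtain ⟨k, hk⟩ : ∃ k : ℕ, D < ((I + ε) / (I + ε / 2)) ^ (k + 1) := by
    have h1 := (tendsto_pow_atTop_atTop_of_one_lt hratio).eventually_gt_atTop D
    have h2 := (tendsto_add_atTop_nat 1).eventually h1
    exact h2.exists
  have hk' : D * (I + ε / 2) ^ (k + 1) < (I + ε) ^ (k + 1) := by
    rwa [div_pow, lt_div_iff₀ (by positivity)] at hk
  set η := (I + ε / 2) ^ (k + 1) - I ^ (k + 1) with hη
  have hη0 : 0 < η := by
    have := pow_lt_pow_left₀ (show I < I + ε / 2 by linarith) hI0 (Nat.succ_ne_zero k)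
    simpa [hη] using this
  obtain ⟨M₀, hM₀⟩ := hf.bounded_above_of_compact_support hf2
  set M : ℝ := max M₀ 1 with hM
  have hM1 : 1 ≤ M := le_max_right _ _
  have hfM : ∀ y, f y ≤ M := fun y => ((le_abs_self _).trans (hM₀ y)).trans (le_max_left _ _)
  set F : T.X (T.pow S k) → ℝ := Pool.Agent.U644.EQ.prodFun (core T) k f with hF
  have hF0 : ∀ y, 0 ≤ F y := fun y => Finset.prod_nonneg fun l _ => hf0 _
  have hFM : ∀ y, F y ≤ M ^ (k + 1) := by
    intro y
    have : F y ≤ ∏ _l : Fin (k + 1), M := Finset.prod_le_prod (fun l _ => hf0 _) fun l _ => hfM _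
    simpa using this
  have hFc : Continuous F := Pool.Agent.U644.EQ.prodFun_cont (core T) k f hf
  have hFs : HasCompactSupport F := Pool.Agent.U644.EQ.prodFun_supp (core T) k f hf2
  have hFI : ∫ y, F y ∂(T.m (T.pow S k)) = I ^ (k + 1) :=
    Pool.Agent.U644.EQ.integral_prodFun (core T) k f
  set Q : T.P (T.pow S k) → Prop := fun y => av (T.orb y) (fun z => F (T.pt z)) ≤ I ^ (k + 1) + η / 2
    with hQdef
  have hQ' : ∀ y : ℕ → T.P (T.pow S k), Strict T y → ∀ᶠ i in atTop, Q (y i) := by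
    intro y hy
    have h1 := hQ k y hy F hFc hFs
    rw [hFI] at h1
    filter_upwards [h1.eventually (gt_mem_nhds (show I ^ (k + 1) < I ^ (k + 1) + η / 2 by linarith))]
      with i hi
    exact hi.le
  set δ : ℝ := η / (2 * (d ^ (k + 1) * M ^ (k + 1))) with hδ
  have hpos : 0 < d ^ (k + 1) * M ^ (k + 1) := by positivity
  have hδ0 : 0 < δ := by positivity
  have hmost := Pool.Agent.U644.EQ.most (core T) k x hx Q hQ' δ hδ0
  filter_upwards [hmost] with i hi
  obtain ⟨U, hU⟩ : ∃ U : Finset (T.P (T.pow S k)), U = Pool.Agent.U644.EQ.tup (core T) S k (x i) :=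
    ⟨_, rfl⟩
  have hi' : ((U.filter fun y => ¬ Q y).card : ℝ) < δ * U.card := by
    rw [hU]
    exact hi
  have hUmem : ∀ y, y ∈ U ↔ ∀ l, T.powP S k y l ∈ T.orb (x i) := by
    intro y
    rw [hU]
    exact Pool.Agent.U644.EQ.mem_tup (core T) (S := S) (k := k) (x := x i) (y := y)
  have hUcard : U.card = (T.orb (x i)).card ^ (k + 1) := by
    rw [hU]
    exact Pool.Agent.U644.EQ.card_tup (core T) (S := S) (k := k) (x := x i)
  set B := sub T (H i) (x i) with hB
  have hBpos : (0 : ℝ) < B.card := by exact_mod_cast Finset.card_pos.2 ⟨_, self_sub T (H i) (x i)⟩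
  set A : Finset (T.P (T.pow S k)) :=
    (Fintype.piFinset fun _ : Fin (k + 1) => B).map (T.powP S k).symm.toEmbedding with hA
  have hmemA : ∀ y, y ∈ A ↔ ∀ l, T.powP S k y l ∈ B := by
    intro y
    rw [hA, Finset.mem_map_equiv, Equiv.symm_symm, Fintype.mem_piFinset]
  have hcardA : (A.card : ℝ) = (B.card : ℝ) ^ (k + 1) := by
    rw [hA, Finset.card_map, Fintype.card_piFinset_const]
    push_cast
    rfl
  have hApos : (0 : ℝ) < A.card := by rw [hcardA]; positivity
  have hsumA : ∑ y ∈ A, F (T.pt y) = (∑ z ∈ B, f (T.pt z)) ^ (k + 1) := by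
    rw [hA, Finset.sum_map]
    have h1 : ∀ y : Fin (k + 1) → T.P S, F (T.pt ((T.powP S k).symm.toEmbedding y)) =
        ∏ l, f (T.pt (y l)) := by
      intro y
      refine Finset.prod_congr rfl fun l _ => ?_
      change f (T.powX S k (T.pt ((T.powP S k).symm y)) l) = _
      rw [T.pow_pt, Equiv.apply_symm_apply]
    simp_rw [h1]
    rw [← Finset.prod_univ_sum (fun _ : Fin (k + 1) => B) (fun _ z => f (T.pt z)), Finset.prod_const,
      Finset.card_univ, Fintype.card_fin]
  have hBV : ∀ z ∈ B, z ∈ orbit (T.gal (x i)) (x i) := by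
    intro z hz
    rw [hB, mem_sub] at hz
    obtain ⟨g, rfl⟩ := hz
    exact ⟨⟨g, hH i g.2⟩, rfl⟩
  have hRA : ∀ y ∈ A, sub T (H i) y ⊆ A := by
    intro y hy z hz
    rw [mem_sub] at hz
    obtain ⟨g, rfl⟩ := hz
    rw [hmemA] at hy ⊢
    intro l
    have h1 : T.powP S k ((g : Γ) • y) l = (g : Γ) • T.powP S k y l := T.pow_smul S k g y l
    change T.powP S k ((g : Γ) • y) l ∈ B
    have h2 : sub T (H i) (T.powP S k y l) = B := sub_eq T (hy l)
    rw [h1, ← h2, mem_sub]
    exact ⟨g, rfl⟩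
  have hsum2 : ∑ y ∈ A, F (T.pt y) = ∑ y ∈ A, av (sub T (H i) y) (fun z => F (T.pt z)) :=
    (sum_av A (fun y => sub T (H i) y) (fun y _ => self_sub T (H i) y) hRA
      (fun y _ z hz => sub_eq T hz) (fun z => F (T.pt z))).symm
  have hblock : ∀ y ∈ A, av (sub T (H i) y) (fun z => F (T.pt z)) ≤
      D * (I ^ (k + 1) + η / 2) + (if Q y then 0 else D * M ^ (k + 1)) := by
    intro y hy
    have h1 := av_le_av (sub T (H i) y) (T.orb y) (by rw [← sub_top]; exact sub_mono T le_top y)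
      ⟨y, self_sub T (H i) y⟩ (fun z => F (T.pt z)) (fun z => hF0 _)
      (orb_tuple T (hH i) (hC (x i)) (hd i) k y fun l => hBV _ ((hmemA y).1 hy l))
    refine h1.trans ?_
    by_cases hq : Q y
    · rw [if_pos hq, add_zero]
      exact mul_le_mul_of_nonneg_left hq hD0
    · rw [if_neg hq]
      have h2 : av (T.orb y) (fun z => F (T.pt z)) ≤ M ^ (k + 1) := by
        unfold av
        have hp : (0 : ℝ) < (T.orb y).card := by exact_mod_cast Finset.card_pos.2 ⟨y, orb_self T y⟩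
        rw [div_le_iff₀ hp]
        refine (Finset.sum_le_sum fun z _ => hFM _).trans (le_of_eq ?_)
        rw [Finset.sum_const, nsmul_eq_mul, mul_comm]
      have h3 : 0 ≤ D * (I ^ (k + 1) + η / 2) := by positivity
      have h4 := mul_le_mul_of_nonneg_left h2 hD0
      change D * av (T.orb y) (fun z => F (T.pt z)) ≤ _
      linarith
  have hbad : ((A.filter fun y => ¬ Q y).card : ℝ) ≤ δ * d ^ (k + 1) * A.card := by
    have h1 : A.filter (fun y => ¬ Q y) ⊆ U.filter fun y => ¬ Q y := by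
      intro y hy
      rw [Finset.mem_filter] at hy ⊢
      refine ⟨(hUmem y).2 fun l => ?_, hy.2⟩
      have := (hmemA y).1 hy.1 l
      rw [← sub_top]
      exact sub_mono T le_top _ this
    have h2 : ((A.filter fun y => ¬ Q y).card : ℝ) ≤ ((U.filter fun y => ¬ Q y).card : ℝ) := by
      exact_mod_cast Finset.card_le_card h1
    have h3 : (U.card : ℝ) ≤ d ^ (k + 1) * A.card := by
      rw [hUcard, hcardA, ← mul_pow]
      push_cast
      exact pow_le_pow_left₀ (Nat.cast_nonneg _) (hd i) _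
    calc ((A.filter fun y => ¬ Q y).card : ℝ) ≤ _ := h2
      _ ≤ δ * U.card := hi'.le
      _ ≤ δ * (d ^ (k + 1) * A.card) := mul_le_mul_of_nonneg_left h3 hδ0.le
      _ = _ := by ring
  have htotal : ∑ y ∈ A, F (T.pt y) ≤ A.card * (D * (I + ε / 2) ^ (k + 1)) := by
    rw [hsum2]
    refine (Finset.sum_le_sum hblock).trans ?_
    have h0 : ∑ y ∈ A, (if Q y then (0 : ℝ) else D * M ^ (k + 1)) =
        ((A.filter fun y => ¬ Q y).card : ℝ) * (D * M ^ (k + 1)) := by
      rw [Finset.sum_ite, Finset.sum_const_zero, zero_add, Finset.sum_const, nsmul_eq_mul]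
    rw [Finset.sum_add_distrib, Finset.sum_const, nsmul_eq_mul, h0]
    have h1 : ((A.filter fun y => ¬ Q y).card : ℝ) * (D * M ^ (k + 1)) ≤
        δ * d ^ (k + 1) * A.card * (D * M ^ (k + 1)) :=
      mul_le_mul_of_nonneg_right hbad (by positivity)
    have h2 : δ * d ^ (k + 1) * A.card * (D * M ^ (k + 1)) = A.card * (D * (η / 2)) := by
      rw [hδ]
      field_simp
    have h3 : (I + ε / 2) ^ (k + 1) = I ^ (k + 1) + η := by rw [hη]; ring
    rw [h3]
    calc _ ≤ (A.card : ℝ) * (D * (I ^ (k + 1) + η / 2)) + A.card * (D * (η / 2)) := by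
          rw [← h2]
          exact add_le_add_right h1 _
      _ = _ := by ring
  -- conclusion
  by_contra hcon
  push Not at hcon
  have h5 : (I + ε) ^ (k + 1) ≤ (av B fun y => f (T.pt y)) ^ (k + 1) :=
    pow_le_pow_left₀ (by linarith) hcon.le _
  have h6 : (av B fun y => f (T.pt y)) ^ (k + 1) * A.card = ∑ y ∈ A, F (T.pt y) := by
    rw [hsumA, av, div_pow, hcardA, div_mul_cancel₀]
    positivity
  have h7 : (av B fun y => f (T.pt y)) ^ (k + 1) * A.card < (I + ε) ^ (k + 1) * A.card := by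
    rw [h6]
    refine htotal.trans_lt ?_
    rw [mul_comm]
    exact mul_lt_mul_of_pos_right hk' hApos
  exact absurd (lt_of_mul_lt_mul_right h7 hApos.le) (not_lt.2 h5)

end Pool.Agent.U980.JT
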