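import Mathlib
import Pool.Agent.U980.JT.Upper

/-!
# Orbits of large subgroups, and joint equidistribution
-/

set_option autoImplicit false
set_option linter.style.haveILetI false

namespace Pool.Agent.U980.JT

open MeasureTheory Filter Topology MulAction

variable {Γ : Type} [Group Γ] (T : GaloisTheory Γ)

theorem strict_conj {S : T.Sh} {x z : ℕ → T.P S} (hx : Strict T x) (hz : ∀ i, z i ∈ T.orb (x i)) :
    Strict T z := by
  intro Z hZ
  obtain ⟨F, hF, hFS, hFc⟩ := T.conj S Z hZ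
  have h := (eventually_all_finite hF).2 fun Z' hZ' => hx Z' (hFS hZ')
  filter_upwards [h] with i hi hzi
  obtain ⟨g, hg⟩ := (T.mem_orb _ _).1 (hz i)
  rw [← hg] at hzi
  obtain ⟨Z', hZ', hx'⟩ := hFc g (x i) hzi
  exact hi Z' hZ' hx'

theorem gal_conj {S : T.Sh} {x z : T.P S} (hz : z ∈ T.orb x) : T.gal z = T.gal x := by
  obtain ⟨g, rfl⟩ := (T.mem_orb _ _).1 hz
  exact T.gal_smul g x

theorem orb_conj {S : T.Sh} {x z : T.P S} (hz : z ∈ T.orb x) : T.orb z = T.orb x := by
  rw [← sub_top, ← sub_top]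
  rw [← sub_top] at hz
  exact sub_eq T hz

/-- uniform upper bound -/
theorem upper_all {S : T.Sh} (hQ : ∀ k, Equidistribution T (T.pow S k)) (x : ℕ → T.P S) (hx : Strict T x)
    (H : ℕ → Subgroup Γ) (hH : ∀ i, H i ≤ T.gal (x i)) (O : ℕ → Finset (T.P S)) (hO : ∀ i, x i ∈ O i)
    (hOx : ∀ i, O i ⊆ T.orb (x i)) {d : ℝ}
    (hd : ∀ i, ∀ z ∈ O i, ((T.orb (x i)).card : ℝ) ≤ d * (sub T (H i) z).card) (f : T.X S → ℝ)
    (hf : Continuous f) (hf2 : HasCompactSupport f) (hf0 : ∀ y, 0 ≤ f y) {ε : ℝ} (hε : 0 < ε) :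
    ∀ᶠ i in atTop, ∀ z ∈ O i, av (sub T (H i) z) (fun y => f (T.pt y)) ≤ (∫ y, f y ∂(T.m S)) + ε := by
  choose w hw hwmax using fun i => Finset.exists_max_image (O i)
    (fun z => av (sub T (H i) z) (fun y => f (T.pt y))) ⟨x i, hO i⟩
  have h := upper T hQ w (strict_conj T hx fun i => hOx i (hw i)) H
    (fun i => by rw [gal_conj T (hOx i (hw i))]; exact hH i) (d := d)
    (fun i => by rw [orb_conj T (hOx i (hw i))]; exact hd i _ (hw i)) f hf hf2 hf0 hε
  filter_upwards [h] with i hi z hz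
  exact (hwmax i z hz).trans hi

/-- The orbits of `gal (x i)`. -/
theorem level_V {S : T.Sh} (hS : Equidistribution T S) (hQ : ∀ k, Equidistribution T (T.pow S k))
    (x : ℕ → T.P S) (hx : Strict T x) (f : T.X S → ℝ)
    (hf : Continuous f) (hf2 : HasCompactSupport f) (hf0 : ∀ y, 0 ≤ f y) {ε : ℝ} (hε : 0 < ε) :
    ∀ᶠ i in atTop, ∀ z ∈ T.orb (x i), (∫ y, f y ∂(T.m S)) - ε ≤
      av (sub T (T.gal (x i)) z) (fun y => f (T.pt y)) := by
  classical
  obtain ⟨C, hC⟩ := T.gal_bounded S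
  have hcard : ∀ i, ∀ z ∈ T.orb (x i), ((T.orb (x i)).card : ℝ) ≤
      ((C : ℝ) + 1) * (sub T (T.gal (x i)) z).card := by
    intro i z hz
    have h1 := card_le T (le_top : T.gal (x i) ≤ ⊤)
      (by rw [Subgroup.relIndex_top_right]; exact T.gal_index _) z
    rw [sub_top, orb_conj T hz, Subgroup.relIndex_top_right] at h1
    have h2 : (T.orb (x i)).card ≤ (C + 1) * (sub T (T.gal (x i)) z).card :=
      h1.trans (Nat.mul_le_mul_right _ ((hC _).trans (Nat.le_succ _)))
    exact_mod_cast h2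
  set ε' : ℝ := ε / (2 * (C + 1)) with hε'
  have hC1 : (0 : ℝ) < (C : ℝ) + 1 := by positivity
  have hε'0 : 0 < ε' := by positivity
  have hup := upper_all T hQ x hx (fun i => T.gal (x i)) (fun i => le_rfl) (fun i => T.orb (x i))
    (fun i => orb_self T _) (fun i => subset_rfl) hcard f hf hf2 hf0 hε'0
  have hlow := (hS x hx f hf hf2).eventually (lt_mem_nhds (sub_lt_self _ hε'0))
  filter_upwards [hup, hlow] with i hi1 hi2 z hz
  have h := lower_of_upper (T.orb (x i)) (fun z => sub T (T.gal (x i)) z)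
    (fun y _ => self_sub T _ y)
    (fun y hy => by
      rw [← orb_conj T hy, ← sub_top]
      exact sub_mono T le_top y)
    (fun y _ w hw => sub_eq T hw) (fun y => f (T.pt y)) hε'0.le hi1 hi2.le hz (hcard i z hz)
  have e : 2 * ((C : ℝ) + 1) * ε' = ε := by
    rw [hε']
    field_simp
  rw [e] at h
  exact h

theorem card_sub_comm {S : T.Sh} {x : T.P S} {H : Subgroup Γ} (hH : H ≤ T.gal x) {z : T.P S}
    (hz : z ∈ sub T (T.gal x) x) : (sub T H z).card = (sub T H x).card := by
  rw [card_sub, card_sub, ← Subgroup.inf_relIndex_right, ← Subgroup.inf_relIndex_right (stabilizer Γ x)]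
  congr 1
  ext v
  rw [Subgroup.mem_inf, Subgroup.mem_inf, and_congr_left_iff]
  intro hv
  rw [mem_sub] at hz
  obtain ⟨⟨g, hg⟩, rfl⟩ := hz
  exact fix_iff T (hH hv) hg

/-- The orbits of subgroups of `gal (x i)`. -/
theorem level_H {S : T.Sh} (hS : Equidistribution T S) (hQ : ∀ k, Equidistribution T (T.pow S k))
    (x : ℕ → T.P S) (hx : Strict T x) (H : ℕ → Subgroup Γ) (hH : ∀ i, H i ≤ T.gal (x i)) {d : ℝ}
    (hd : ∀ i, ((T.orb (x i)).card : ℝ) ≤ d * (sub T (H i) (x i)).card) (f : T.X S → ℝ)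
    (hf : Continuous f) (hf2 : HasCompactSupport f) (hf0 : ∀ y, 0 ≤ f y) :
    Tendsto (fun i => av (sub T (H i) (x i)) (fun y => f (T.pt y))) atTop
      (𝓝 (∫ y, f y ∂(T.m S))) := by
  classical
  have hd0 : 0 < d := by
    have h1 := hd 0
    have h2 : (0 : ℝ) < (T.orb (x 0)).card := by
      exact_mod_cast Finset.card_pos.2 ⟨_, orb_self T (x 0)⟩
    by_contra hcon
    push Not at hcon
    have : d * ((sub T (H 0) (x 0)).card : ℝ) ≤ 0 :=
      mul_nonpos_of_nonpos_of_nonneg hcon (Nat.cast_nonneg _)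
    linarith
  rw [Metric.tendsto_atTop']
  intro ε hε
  have hsubO : ∀ i, sub T (T.gal (x i)) (x i) ⊆ T.orb (x i) := by
    intro i
    rw [← sub_top]
    exact sub_mono T le_top _
  have hcard : ∀ i, ∀ z ∈ sub T (T.gal (x i)) (x i), ((T.orb (x i)).card : ℝ) ≤
      d * (sub T (H i) z).card := by
    intro i z hz
    rw [card_sub_comm T (hH i) hz]
    exact hd i
  set ε' : ℝ := ε / (2 * (2 * d + 1)) with hε'
  have hε'0 : 0 < ε' := by positivity
  have hup := upper_all T hQ x hx H hH (fun i => sub T (T.gal (x i)) (x i))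
    (fun i => self_sub T _ _) hsubO hcard f hf hf2 hf0 hε'0
  have hlow := level_V T hS hQ x hx f hf hf2 hf0 hε'0
  obtain ⟨N, hN⟩ := (hup.and hlow).exists_forall_of_atTop
  refine ⟨N, fun i hi => ?_⟩
  obtain ⟨h1, h2⟩ := hN i hi.le
  have h3 := lower_of_upper (sub T (T.gal (x i)) (x i)) (fun z => sub T (H i) z)
    (fun y _ => self_sub T _ y)
    (fun y hy => by
      rw [← sub_eq T hy]
      exact sub_mono T (hH i) y)
    (fun y _ w hw => sub_eq T hw) (fun y => f (T.pt y)) hε'0.le h1 (h2 _ (orb_self T _))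
    (self_sub T _ _) (C := d) (le_trans (by exact_mod_cast Finset.card_le_card (hsubO i)) (hd i))
  have h4 := h1 _ (self_sub T _ _)
  have e : (2 * d + 1) * ε' = ε / 2 := by
    rw [hε']
    field_simp
  have e2 : 0 < 2 * d * ε' := by positivity
  rw [Real.dist_eq, abs_lt]
  constructor <;> nlinarith

/-- Averages of averages. -/
theorem exists_worst {A : Type} [DecidableEq A] (O : Finset A) (hne : O.Nonempty) (R : A → Finset A)
    (hself : ∀ y ∈ O, y ∈ R y) (hR : ∀ y ∈ O, R y ⊆ O) (hconst : ∀ y ∈ O, ∀ z ∈ R y, R z = R y)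
    (F h : A → ℝ) (h1 : ∀ y ∈ O, |h y| ≤ 1) (hh : ∀ y ∈ O, ∀ z ∈ R y, h z = h y) (I : ℝ) :
    ∃ y ∈ O, |av O (fun z => F z * h z) - I * av O h| ≤ |av (R y) F - I| := by
  obtain ⟨y, hy, hmax⟩ := Finset.exists_max_image O (fun y => |av (R y) F - I|) hne
  refine ⟨y, hy, ?_⟩
  have hOpos : (0 : ℝ) < O.card := by exact_mod_cast Finset.card_pos.2 hne
  have hs : ∑ z ∈ O, F z * h z = ∑ z ∈ O, av (R z) F * h z := by
    rw [← sum_av O R hself hR hconst]
    refine Finset.sum_congr rfl fun z hz => ?_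
    unfold av
    rw [div_mul_eq_mul_div, Finset.sum_mul]
    congr 1
    exact Finset.sum_congr rfl fun w hw => by
      change F w * h w = F w * h z
      rw [hh z hz w hw]
  have e : av O (fun z => F z * h z) - I * av O h = (∑ z ∈ O, (av (R z) F - I) * h z) / O.card := by
    unfold av at hs ⊢
    rw [hs, mul_div_assoc', ← sub_div, Finset.mul_sum, ← Finset.sum_sub_distrib]
    congr 1
    exact Finset.sum_congr rfl fun z _ => by ring
  rw [e, abs_div, abs_of_pos hOpos, div_le_iff₀ hOpos]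
  refine (Finset.abs_sum_le_sum_abs _ _).trans ?_
  calc ∑ z ∈ O, |(av (R z) F - I) * h z| ≤ ∑ _z ∈ O, |av (R y) F - I| := by
        refine Finset.sum_le_sum fun z hz => ?_
        rw [abs_mul]
        calc |av (R z) F - I| * |h z| ≤ |av (R z) F - I| * 1 :=
              mul_le_mul_of_nonneg_left (h1 z hz) (abs_nonneg _)
          _ ≤ _ := by rw [mul_one]; exact hmax z hz
    _ = |av (R y) F - I| * O.card := by rw [Finset.sum_const, nsmul_eq_mul, mul_comm]

/-- The orbits of arbitrary subgroups, for nonnegative functions. -/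
theorem level_sub {S : T.Sh} (hS : Equidistribution T S) (hQ : ∀ k, Equidistribution T (T.pow S k))
    (x : ℕ → T.P S) (hx : Strict T x) (Δ : ℕ → Subgroup Γ) {d : ℝ}
    (hd : ∀ i, ((T.orb (x i)).card : ℝ) ≤ d * (sub T (Δ i) (x i)).card) (f : T.X S → ℝ)
    (hf : Continuous f) (hf2 : HasCompactSupport f) (hf0 : ∀ y, 0 ≤ f y) :
    Tendsto (fun i => av (sub T (Δ i) (x i)) (fun y => f (T.pt y))) atTop
      (𝓝 (∫ y, f y ∂(T.m S))) := by
  classical
  obtain ⟨C, hC⟩ := T.gal_bounded S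
  set I := ∫ y, f y ∂(T.m S) with hI
  set H : ℕ → Subgroup Γ := fun i => Δ i ⊓ T.gal (x i) with hH
  have hd0 : 0 ≤ d := by
    by_contra hcon
    push Not at hcon
    have h2 : (0 : ℝ) < (T.orb (x 0)).card := by
      exact_mod_cast Finset.card_pos.2 ⟨_, orb_self T (x 0)⟩
    have : d * ((sub T (Δ 0) (x 0)).card : ℝ) ≤ 0 :=
      mul_nonpos_of_nonpos_of_nonneg hcon.le (Nat.cast_nonneg _)
    linarith [hd 0]
  have hrel : ∀ i, (H i).relIndex (Δ i) ≠ 0 ∧ (H i).relIndex (Δ i) ≤ C := by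
    intro i
    rw [hH]
    change (Δ i ⊓ T.gal (x i)).relIndex (Δ i) ≠ 0 ∧ (Δ i ⊓ T.gal (x i)).relIndex (Δ i) ≤ C
    rw [Subgroup.inf_relIndex_left]
    have h0 : (T.gal (x i)).relIndex (Δ i) ≠ 0 := by
      intro h0
      exact T.gal_index (x i) (by
        rw [← Subgroup.relIndex_top_right]; exact Subgroup.relIndex_eq_zero_of_le_right le_top h0)
    refine ⟨h0, (?_ : _ ≤ _).trans (hC (x i))⟩
    rw [← Subgroup.relIndex_top_right]
    exact Subgroup.relIndex_le_of_le_right le_top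
      (by rw [Subgroup.relIndex_top_right]; exact T.gal_index _)
  have hnorm : ∀ i, ∀ g ∈ Δ i, ∀ h ∈ H i, g * h * g⁻¹ ∈ H i := by
    intro i g hg h hh
    exact ⟨(Δ i).mul_mem ((Δ i).mul_mem hg hh.1) ((Δ i).inv_mem hg),
      (T.gal_normal (x i)).conj_mem h hh.2 g⟩
  have hex : ∀ i, ∃ z ∈ sub T (Δ i) (x i), |av (sub T (Δ i) (x i)) (fun y => f (T.pt y)) - I| ≤
      |av (sub T (H i) z) (fun y => f (T.pt y)) - I| := by
    intro i
    obtain ⟨z, hz, h⟩ := exists_worst (sub T (Δ i) (x i)) ⟨_, self_sub T _ _⟩ (fun z => sub T (H i) z)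
      (fun y _ => self_sub T _ y) (fun y hy => by
        rw [← sub_eq T hy]
        exact sub_mono T inf_le_left y) (fun y _ w hw => sub_eq T hw) (fun y => f (T.pt y))
      (fun _ => 1) (fun _ _ => by simp) (fun _ _ _ _ => rfl) I
    refine ⟨z, hz, ?_⟩
    have hpos : (0 : ℝ) < (sub T (Δ i) (x i)).card := by
      exact_mod_cast Finset.card_pos.2 ⟨_, self_sub T (Δ i) (x i)⟩
    have e1 : av (sub T (Δ i) (x i)) (fun _ => (1 : ℝ)) = 1 := by
      rw [av, Finset.sum_const, nsmul_eq_mul, mul_one, div_self hpos.ne']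
    rw [e1] at h
    simpa using h
  choose z hz hle using hex
  have hzo : ∀ i, z i ∈ T.orb (x i) := by
    intro i
    rw [← sub_top]
    exact sub_mono T le_top _ (hz i)
  have key := level_H T hS hQ z (strict_conj T hx hzo) H (fun i => by
      rw [gal_conj T (hzo i)]
      exact inf_le_right) (d := d * C) (fun i => by
      obtain ⟨g, hg⟩ := (mem_sub T).1 (hz i)
      have h1 := card_le T (inf_le_left : H i ≤ Δ i) (hrel i).1 (x i)
      have h2 : (sub T (H i) (z i)).card = (sub T (H i) (x i)).card := by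
        rw [← hg]
        exact card_sub_smul T (hnorm i) g.2 (x i)
      rw [orb_conj T (hzo i), h2]
      have h3 : (sub T (Δ i) (x i)).card ≤ C * (sub T (H i) (x i)).card :=
        h1.trans (Nat.mul_le_mul_right _ (hrel i).2)
      calc ((T.orb (x i)).card : ℝ) ≤ d * (sub T (Δ i) (x i)).card := hd i
        _ ≤ d * (C * (sub T (H i) (x i)).card) :=
            mul_le_mul_of_nonneg_left (by exact_mod_cast h3) hd0
        _ = _ := by ring) f hf hf2 hf0
  rw [tendsto_iff_norm_sub_tendsto_zero] at key ⊢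
  exact squeeze_zero (fun i => norm_nonneg _) (fun i => hle i) key

theorem av_sub {A : Type} (B : Finset A) (φ ψ : A → ℝ) :
    av B (fun y => φ y - ψ y) = av B φ - av B ψ := by
  unfold av
  rw [Finset.sum_sub_distrib, sub_div]

/-- The average over a finite set of points. -/
noncomputable def mean {A : Type} (s : Set A) (φ : A → ℝ) : ℝ := (∑ᶠ y ∈ s, φ y) / s.ncard

theorem mean_coe {A : Type} (B : Finset A) (φ : A → ℝ) : mean (B : Set A) φ = av B φ := by
  rw [mean, av, finsum_mem_coe_finset, Set.ncard_coe_finset]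

theorem coe_sub (H : Subgroup Γ) {S : T.Sh} (y : T.P S) : (sub T H y : Set (T.P S)) = orbit H y := by
  ext z
  rw [Finset.mem_coe, mem_sub]

theorem coe_orb {S : T.Sh} (y : T.P S) : (T.orb y : Set (T.P S)) = orbit Γ y := by
  ext z
  rw [Finset.mem_coe, T.mem_orb]

/-- **Orbits of large subgroups.** -/
theorem main_sub {S : T.Sh} (hS : Equidistribution T S) (hQ : ∀ k, Equidistribution T (T.pow S k))
    (x : ℕ → T.P S) (hx : Strict T x) (Δ : ℕ → Subgroup Γ) {d : ℝ}
    (hd : ∀ i, ((T.orb (x i)).card : ℝ) ≤ d * (sub T (Δ i) (x i)).card) (f : T.X S → ℝ)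
    (hf : Continuous f) (hf2 : HasCompactSupport f) :
    Tendsto (fun i => av (sub T (Δ i) (x i)) (fun y => f (T.pt y))) atTop
      (𝓝 (∫ y, f y ∂(T.m S))) := by
  set f1 : T.X S → ℝ := fun y => max (f y) 0 with hf1
  set f2 : T.X S → ℝ := fun y => max (-f y) 0 with hf2'
  have e : ∀ y, f y = f1 y - f2 y := by
    intro y
    simp only [hf1, hf2']
    rcases le_total (f y) 0 with h | h
    · rw [max_eq_right h, max_eq_left (by linarith)]
      ring
    · rw [max_eq_left h, max_eq_right (by linarith)]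
      ring
  have c1 : Continuous f1 := hf.max continuous_const
  have c2 : Continuous f2 := hf.neg.max continuous_const
  have s1 : HasCompactSupport f1 := by
    refine hf2.mono fun y hy => ?_
    rw [Function.mem_support] at hy ⊢
    intro h
    apply hy
    simp only [hf1, h, max_self]
  have s2 : HasCompactSupport f2 := by
    refine hf2.mono fun y hy => ?_
    rw [Function.mem_support] at hy ⊢
    intro h
    apply hy
    simp only [hf2', h, neg_zero, max_self]
  have h1 := level_sub T hS hQ x hx Δ hd f1 c1 s1 fun y => le_max_right _ _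
  have h2 := level_sub T hS hQ x hx Δ hd f2 c2 s2 fun y => le_max_right _ _
  have e1 : ∫ y, f y ∂(T.m S) = (∫ y, f1 y ∂(T.m S)) - ∫ y, f2 y ∂(T.m S) := by
    rw [← integral_sub (c1.integrable_of_hasCompactSupport s1) (c2.integrable_of_hasCompactSupport s2)]
    exact integral_congr_ae (Eventually.of_forall e)
  rw [e1]
  refine (h1.sub h2).congr fun i => ?_
  rw [← av_sub]
  unfold av
  congr 1
  exact Finset.sum_congr rfl fun y _ => (e (T.pt y)).symm

theorem stabilizer_pair {A B : Type} [MulAction Γ A] [MulAction Γ B] (a : A) (b : B) :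
    stabilizer Γ ((a, b) : A × B) = stabilizer Γ a ⊓ stabilizer Γ b := by
  ext g
  rw [Subgroup.mem_inf, mem_stabilizer_iff, mem_stabilizer_iff, mem_stabilizer_iff, Prod.smul_mk,
    Prod.mk.injEq]

/-- The orbit of a pair fibres over the orbit of the second coordinate. -/
theorem ncard_pair {S : T.Sh} {Q : Type} [MulAction Γ Q] (z : T.P S) (q : Q) :
    (orbit Γ ((z, q) : T.P S × Q)).ncard = (sub T (stabilizer Γ q) z).card * (orbit Γ q).ncard := by
  rw [card_sub, ← index_stabilizer, ← index_stabilizer, stabilizer_pair]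
  have h := Subgroup.relIndex_inf_mul_relIndex (stabilizer Γ z) (stabilizer Γ q) ⊤
  rw [inf_top_eq, Subgroup.relIndex_top_right, Subgroup.relIndex_top_right] at h
  exact h.symm

theorem joint_one {S : T.Sh} (hS : Equidistribution T S) (hQ : ∀ k, Equidistribution T (T.pow S k))
    (x : ℕ → T.P S) (hx : Strict T x) {Q : Type} [MulAction Γ Q] (w : ℕ → Q)
    (hw : ∀ i, (orbit Γ (w i)).Finite) {d : ℝ}
    (hd : ∀ i, ((orbit Γ (x i)).ncard : ℝ) * (orbit Γ (w i)).ncard ≤
      d * (orbit Γ ((x i, w i) : T.P S × Q)).ncard) (f : T.X S → ℝ)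
    (hf : Continuous f) (hf2 : HasCompactSupport f) (h : ℕ → Q → ℝ) (hM : ∀ i q, |h i q| ≤ 1) :
    Tendsto (fun i => mean (orbit Γ ((x i, w i) : T.P S × Q)) (fun z => f (T.pt z.1) * h i z.2) -
      (∫ y, f y ∂(T.m S)) * mean (orbit Γ (w i)) (h i)) atTop (𝓝 0) := by
  classical
  set I := ∫ y, f y ∂(T.m S) with hI
  have hfin : ∀ i, (orbit Γ ((x i, w i) : T.P S × Q)).Finite := by
    intro i
    refine ((T.orb (x i)).finite_toSet.prod (hw i)).subset ?_
    rintro _ ⟨g, rfl⟩
    exact ⟨(T.mem_orb _ _).2 ⟨g, rfl⟩, ⟨g, rfl⟩⟩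
  set O : ℕ → Finset (T.P S × Q) := fun i => (hfin i).toFinset with hO
  have hOc : ∀ i, (O i : Set (T.P S × Q)) = orbit Γ (x i, w i) := fun i => Set.Finite.coe_toFinset _
  have hOm : ∀ i p, p ∈ O i ↔ p ∈ orbit Γ ((x i, w i) : T.P S × Q) := fun i p =>
    Set.Finite.mem_toFinset _
  let emb : Q → T.P S ↪ T.P S × Q := fun q => ⟨fun z => (z, q), fun a b hab => (Prod.mk.inj hab).1⟩
  set R : T.P S × Q → Finset (T.P S × Q) := fun p =>
    (sub T (stabilizer Γ p.2) p.1).map (emb p.2) with hR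
  have hRm : ∀ p r, r ∈ R p ↔ r.2 = p.2 ∧ r.1 ∈ sub T (stabilizer Γ p.2) p.1 := by
    intro p r
    simp only [hR, Finset.mem_map]
    constructor
    · rintro ⟨z, hz, rfl⟩
      exact ⟨rfl, hz⟩
    · rintro ⟨h1, h2⟩
      exact ⟨r.1, h2, Prod.ext rfl h1.symm⟩
  have hex : ∀ i, ∃ p ∈ O i,
      |av (O i) (fun z => f (T.pt z.1) * h i z.2) - I * av (O i) (fun z => h i z.2)| ≤
        |av (sub T (stabilizer Γ p.2) p.1) (fun z => f (T.pt z)) - I| := by
    intro i
    obtain ⟨p, hp, hle⟩ := exists_worst (O i) ⟨(x i, w i), (hOm i _).2 (mem_orbit_self _)⟩ R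
      (fun y _ => (hRm y y).2 ⟨rfl, self_sub T _ _⟩)
      (by
        intro y hy r hr
        obtain ⟨h1, h2⟩ := (hRm y r).1 hr
        obtain ⟨g, hg⟩ := (mem_sub T).1 h2
        rw [hOm] at hy ⊢
        have e : r = (g : Γ) • y := Prod.ext hg.symm (by
          rw [h1]
          exact g.2.symm)
        rw [e]
        exact (orbit_eq_iff.2 hy) ▸ (mem_orbit y (g : Γ)))
      (by
        intro y _ r hr
        obtain ⟨h1, h2⟩ := (hRm y r).1 hr
        ext s
        rw [hRm, hRm, h1, sub_eq T h2])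
      (fun z => f (T.pt z.1)) (fun z => h i z.2) (fun y _ => hM i _)
      (fun y _ z hz => by rw [((hRm y z).1 hz).1]) I
    refine ⟨p, hp, ?_⟩
    have e : av (R p) (fun z => f (T.pt z.1)) =
        av (sub T (stabilizer Γ p.2) p.1) (fun z => f (T.pt z)) := by
      unfold av
      simp only [hR]
      rw [Finset.sum_map, Finset.card_map]
      rfl
    rw [e] at hle
    exact hle
  choose p hp hle using hex
  have hpo : ∀ i, (p i).1 ∈ T.orb (x i) ∧ (p i).2 ∈ orbit Γ (w i) := by
    intro i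
    obtain ⟨g, hg⟩ := (hOm i _).1 (hp i)
    rw [← hg]
    exact ⟨(T.mem_orb _ _).2 ⟨g, rfl⟩, ⟨g, rfl⟩⟩
  have key := main_sub T hS hQ (fun i => (p i).1) (strict_conj T hx fun i => (hpo i).1)
    (fun i => stabilizer Γ (p i).2) (d := d) (fun i => by
      have h1 := hd i
      have e1 : orbit Γ ((x i, w i) : T.P S × Q) = orbit Γ (((p i).1, (p i).2) : T.P S × Q) :=
        (orbit_eq_iff.2 ((hOm i _).1 (hp i))).symm
      have e2 : orbit Γ (w i) = orbit Γ (p i).2 := (orbit_eq_iff.2 (hpo i).2).symm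
      rw [e1, ncard_pair, e2, ← coe_orb, Set.ncard_coe_finset] at h1
      have hpos : (0 : ℝ) < ((orbit Γ (p i).2).ncard : ℝ) := by
        have hf' : (orbit Γ (p i).2).Finite := e2 ▸ hw i
        exact_mod_cast (Set.ncard_pos hf').2 ⟨_, mem_orbit_self _⟩
      rw [orb_conj T (hpo i).1]
      push_cast at h1
      rw [← mul_assoc] at h1
      exact le_of_mul_le_mul_right h1 hpos) f hf hf2
  rw [tendsto_iff_norm_sub_tendsto_zero] at key
  refine squeeze_zero_norm (fun i => ?_) key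
  refine le_trans (le_of_eq ?_) (hle i)
  have hOw : ((hw i).toFinset : Set Q) = orbit Γ (w i) := Set.Finite.coe_toFinset _
  have e3 := Pool.Agent.U980.EQ.av_equiv (H := Γ) (A := T.P S × Q) (B := Q) (π := fun z => z.2)
    (fun g a => rfl) (x i, w i) (hOc i) (O' := (hw i).toFinset) hOw (h i)
  have e4 : av (O i) (fun z => h i z.2) = av (hw i).toFinset (h i) := e3
  rw [Real.norm_eq_abs, ← hOc i, mean_coe, ← hOw, mean_coe, e4]

/-- **Independence of all other algebraic data.** -/
theorem main_joint {S : T.Sh} (hS : Equidistribution T S) (hQ : ∀ k, Equidistribution T (T.pow S k))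
    (x : ℕ → T.P S) (hx : Strict T x) {Q : Type} [MulAction Γ Q] (w : ℕ → Q)
    (hw : ∀ i, (orbit Γ (w i)).Finite) {d : ℝ}
    (hd : ∀ i, ((orbit Γ (x i)).ncard : ℝ) * (orbit Γ (w i)).ncard ≤
      d * (orbit Γ ((x i, w i) : T.P S × Q)).ncard) (f : T.X S → ℝ)
    (hf : Continuous f) (hf2 : HasCompactSupport f) (h : ℕ → Q → ℝ) {M : ℝ} (hM : ∀ i q, |h i q| ≤ M) :
    Tendsto (fun i => mean (orbit Γ ((x i, w i) : T.P S × Q)) (fun z => f (T.pt z.1) * h i z.2) -
      (∫ y, f y ∂(T.m S)) * mean (orbit Γ (w i)) (h i)) atTop (𝓝 0) := by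
  have hM' : (0 : ℝ) < |M| + 1 := by positivity
  have key := joint_one T hS hQ x hx w hw hd f hf hf2 (fun i q => (|M| + 1)⁻¹ * h i q) (by
    intro i q
    rw [abs_mul, abs_of_pos (inv_pos.2 hM'), inv_mul_le_iff₀ hM', mul_one]
    exact (hM i q).trans ((le_abs_self M).trans (by linarith)))
  have h2 := key.const_mul (|M| + 1)
  rw [mul_zero] at h2
  refine h2.congr fun i => ?_
  have hsc : ∀ {A : Type} (s : Set A) (hs : s.Finite) (φ : A → ℝ) (c : ℝ),
      mean s (fun z => c * φ z) = c * mean s φ := by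
    intro A s hs φ c
    obtain ⟨B, rfl⟩ := hs.exists_finset_coe
    rw [mean_coe, mean_coe, av, av, ← Finset.mul_sum, mul_div_assoc]
  have hfin : (orbit Γ ((x i, w i) : T.P S × Q)).Finite := by
    refine ((T.orb (x i)).finite_toSet.prod (hw i)).subset ?_
    rintro _ ⟨g, rfl⟩
    exact ⟨(T.mem_orb _ _).2 ⟨g, rfl⟩, ⟨g, rfl⟩⟩
  have e1 : mean (orbit Γ ((x i, w i) : T.P S × Q)) (fun z => f (T.pt z.1) * ((|M| + 1)⁻¹ * h i z.2)) =
      (|M| + 1)⁻¹ * mean (orbit Γ ((x i, w i) : T.P S × Q)) (fun z => f (T.pt z.1) * h i z.2) := by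
    rw [← hsc _ hfin]
    congr 1
    funext z
    ring
  rw [e1, hsc _ (hw i)]
  field_simp

theorem mean_equiv {A B : Type} [MulAction Γ A] [MulAction Γ B] {π : A → B}
    (hπ : ∀ (g : Γ) a, π (g • a) = g • π a) (a : A) (ha : (orbit Γ a).Finite) (φ : B → ℝ) :
    mean (orbit Γ a) (fun y => φ (π y)) = mean (orbit Γ (π a)) φ := by
  classical
  have hb : (orbit Γ (π a)).Finite := by
    refine (ha.image π).subset ?_
    rintro _ ⟨g, rfl⟩
    exact ⟨g • a, ⟨g, rfl⟩, hπ g a⟩
  have hOa : (ha.toFinset : Set A) = orbit Γ a := Set.Finite.coe_toFinset _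
  have hOb : (hb.toFinset : Set B) = orbit Γ (π a) := Set.Finite.coe_toFinset _
  have e := Pool.Agent.U980.EQ.av_equiv (H := Γ) hπ a hOa hOb φ
  rw [← hOa, mean_coe, ← hOb, mean_coe]
  exact e

/-- **Products.** -/
theorem main_product {ι : Type} [Fintype ι] {S : ι → T.Sh} (hS : ∀ j, Equidistribution T (S j))
    (hQ : ∀ j k, Equidistribution T (T.pow (S j) k)) (x : ℕ → ∀ j, T.P (S j))
    (hx : ∀ j, Strict T fun i => x i j) {d : ℝ}
    (hd : ∀ i, ∏ j, ((orbit Γ (x i j)).ncard : ℝ) ≤ d * (orbit Γ (x i)).ncard)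
    (f : ∀ j, T.X (S j) → ℝ) (hf : ∀ j, Continuous (f j)) (hf2 : ∀ j, HasCompactSupport (f j)) :
    Tendsto (fun i => mean (orbit Γ (x i)) (fun y => ∏ j, f j (T.pt (y j)))) atTop
      (𝓝 (∏ j, ∫ y, f j y ∂(T.m (S j)))) := by
  classical
  have hfin : ∀ i, (orbit Γ (x i)).Finite := by
    intro i
    refine (Set.Finite.pi' fun j => (T.orb (x i j)).finite_toSet).subset ?_
    rintro _ ⟨g, rfl⟩ j
    exact (T.mem_orb _ _).2 ⟨g, rfl⟩
  have hd0 : 0 ≤ d := by
    by_contra hcon
    push Not at hcon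
    have h1 : (0 : ℝ) ≤ ∏ j, ((orbit Γ (x 0 j)).ncard : ℝ) :=
      Finset.prod_nonneg fun j _ => Nat.cast_nonneg _
    have h2 : (0 : ℝ) < (orbit Γ (x 0)).ncard := by
      exact_mod_cast (Set.ncard_pos (hfin 0)).2 ⟨_, mem_orbit_self _⟩
    nlinarith [hd 0]
  suffices h : ∀ U : Finset ι, Tendsto (fun i => mean (orbit Γ (x i))
      (fun y => ∏ j ∈ U, f j (T.pt (y j)))) atTop (𝓝 (∏ j ∈ U, ∫ y, f j y ∂(T.m (S j)))) from
    h Finset.univ
  intro U
  induction U using Finset.induction_on with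
  | empty =>
    simp only [Finset.prod_empty]
    refine tendsto_const_nhds.congr fun i => ?_
    have hO : ((hfin i).toFinset : Set (∀ j, T.P (S j))) = orbit Γ (x i) := Set.Finite.coe_toFinset _
    rw [← hO, mean_coe, av, Finset.sum_const, nsmul_eq_mul, mul_one, div_self]
    exact_mod_cast (Finset.card_pos.2 ⟨x i, (Set.Finite.mem_toFinset _).2 (mem_orbit_self _)⟩).ne'
  | insert j U hj ih =>
    let Q : Type := ∀ l : {l : ι // l ≠ j}, T.P (S l)
    let e : (∀ l, T.P (S l)) → T.P (S j) × Q := fun y => (y j, fun l => y l)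
    have he : ∀ (g : Γ) y, e (g • y) = g • e y := fun g y => rfl
    have heinj : Function.Injective e := by
      intro y z hyz
      funext l
      by_cases hl : l = j
      · subst hl
        exact congrArg Prod.fst hyz
      · exact congrFun (congrArg Prod.snd hyz) ⟨l, hl⟩
    let w : ℕ → Q := fun i l => x i l
    have hw : ∀ i, (orbit Γ (w i)).Finite := by
      intro i
      refine (Set.Finite.pi' fun l : {l : ι // l ≠ j} => (T.orb (x i l)).finite_toSet).subset ?_
      rintro _ ⟨g, rfl⟩ l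
      exact (T.mem_orb _ _).2 ⟨g, rfl⟩
    let h : Q → ℝ := fun q => ∏ l ∈ U, (if hl : l ≠ j then f l (T.pt (q ⟨l, hl⟩)) else 1)
    have hh : ∀ y : ∀ l, T.P (S l), h (e y).2 = ∏ l ∈ U, f l (T.pt (y l)) := by
      intro y
      refine Finset.prod_congr rfl fun l hl => ?_
      have : l ≠ j := fun h => hj (h ▸ hl)
      rw [dif_pos this]
    choose M hM using fun l => (hf l).bounded_above_of_compact_support (hf2 l)
    have hhM : ∀ q, |h q| ≤ ∏ l ∈ U, (|M l| + 1) := by
      intro q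
      rw [Finset.abs_prod]
      refine Finset.prod_le_prod (fun _ _ => abs_nonneg _) fun l _ => ?_
      split_ifs with hl
      · have := hM l (T.pt (q ⟨l, hl⟩))
        rw [Real.norm_eq_abs] at this
        linarith [le_abs_self (M l)]
      · rw [abs_one]
        linarith [abs_nonneg (M l)]
    have horb : ∀ i, (orbit Γ (e (x i))).ncard = (orbit Γ (x i)).ncard := by
      intro i
      have : orbit Γ (e (x i)) = e '' orbit Γ (x i) := by
        ext r
        constructor
        · rintro ⟨g, rfl⟩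
          exact ⟨g • x i, ⟨g, rfl⟩, he g _⟩
        · rintro ⟨_, ⟨g, rfl⟩, rfl⟩
          exact ⟨g, (he g _).symm⟩
      rw [this, Set.ncard_image_of_injective _ heinj]
    have hover : ∀ i, ((orbit Γ (x i j)).ncard : ℝ) * (orbit Γ (w i)).ncard ≤
        d * (orbit Γ ((x i j, w i) : T.P (S j) × Q)).ncard := by
      intro i
      have h1 : (orbit Γ ((x i j, w i) : T.P (S j) × Q)).ncard = (orbit Γ (x i)).ncard := horb i
      rw [h1]
      refine le_trans ?_ (hd i)
      rw [Fintype.prod_eq_mul_prod_subtype_ne _ j]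
      refine mul_le_mul_of_nonneg_left ?_ (Nat.cast_nonneg _)
      have h2 : (orbit Γ (w i)).ncard ≤ ∏ l : {l : ι // l ≠ j}, (orbit Γ (x i l)).ncard := by
        have h3 : orbit Γ (w i) ⊆
            (Fintype.piFinset fun l : {l : ι // l ≠ j} => T.orb (x i l) : Finset Q) := by
          rintro _ ⟨g, rfl⟩
          rw [Finset.mem_coe, Fintype.mem_piFinset]
          intro l
          exact (T.mem_orb _ _).2 ⟨g, rfl⟩
        refine (Set.ncard_le_ncard h3 (Finset.finite_toSet _)).trans (le_of_eq ?_)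
        rw [Set.ncard_coe_finset, Fintype.card_piFinset]
        refine Finset.prod_congr rfl fun l _ => ?_
        rw [← coe_orb, Set.ncard_coe_finset]
      exact_mod_cast h2
    have key := main_joint T (hS j) (hQ j) (fun i => x i j) (hx j) w hw hover (f j) (hf j) (hf2 j)
      (fun _ => h) (fun _ q => hhM q)
    have e1 : ∀ i, mean (orbit Γ (x i)) (fun y => ∏ l ∈ insert j U, f l (T.pt (y l))) =
        mean (orbit Γ ((x i j, w i) : T.P (S j) × Q)) (fun z => f j (T.pt z.1) * h z.2) := by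
      intro i
      rw [← mean_equiv he (x i) (hfin i) (fun z => f j (T.pt z.1) * h z.2)]
      congr 1
      funext y
      rw [hh y, Finset.prod_insert hj]
    have e2 : ∀ i, mean (orbit Γ (w i)) h = mean (orbit Γ (x i)) (fun y => ∏ l ∈ U, f l (T.pt (y l))) := by
      intro i
      rw [← mean_equiv (π := fun y => (e y).2) (fun g y => rfl) (x i) (hfin i) h]
      congr 1
      funext y
      exact hh y
    rw [Finset.prod_insert hj]
    have h5 := key.add (ih.const_mul (∫ y, f j y ∂(T.m (S j))))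
    rw [zero_add] at h5
    refine h5.congr fun i => ?_
    rw [e1 i, e2 i]
    ring

end Pool.Agent.U980.JT
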